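import Pool.Agent.Lib.Helper9.SpinProof

/-!
# A formally self-dual, exactly triply regular scheme whose only spin models are Potts models

Every Bose-Mesner algebra contains the Potts models `a I + b (J - I)`. We show that for the
imprimitive scheme on `m ^ 2` points (`m` classes of `m` points, `m ≥ 3`), which is formally
self-dual and exactly triply regular, there are no others, and that none of them is supported by
the scheme (the Bose-Mesner algebra is not contained in the Nomura algebra).
-/

set_option autoImplicit false

namespace Pool.Agent.Results.MP_a35cac_co.OnlyPotts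

open Pool.Agent.Lib.Helper9.Spin

/-- For every `m ≥ 3` there is a formally self-dual, exactly triply regular symmetric association
scheme with two classes on `m ^ 2` points such that every spin model `W` in its Bose-Mesner
algebra is a Potts model `a I + b (J - I)`, and such that no spin model `W` in its Bose-Mesner
algebra has the whole Bose-Mesner algebra in its Nomura algebra. -/
theorem result (m : ℕ) (hm : 3 ≤ m) :
    ∃ S : SymmScheme (Fin m × Fin m) 2, S.FormallySelfDual ∧ S.ExactlyTriplyRegular ∧
      ∀ W ∈ S.bm, IsSpinModel W →
        (∃ a b : ℂ, W = a • 1 + b • (allOnes (Fin m × Fin m) - 1)) ∧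
          ¬ ∀ M ∈ S.bm, InNomura W M := by
  obtain ⟨k, rfl⟩ : ∃ k, m = k + 3 := ⟨m - 3, by omega⟩
  have hm2 : 2 ≤ k + 3 := by omega
  refine ⟨wscheme (k + 3) hm2, formallySelfDual _ hm2, exactlyTriplyRegular _ hm2, ?_⟩
  intro W hWmem hW
  obtain ⟨t, ht⟩ := mem_bm_apply _ hm2 hWmem
  obtain ⟨h12, h01⟩ := potts_of_spin W t ht hW
  refine ⟨⟨t 0, t 1, ?_⟩, ?_⟩
  · ext x y
    rw [ht]
    simp only [Matrix.add_apply, Matrix.smul_apply, Matrix.sub_apply, Matrix.one_apply, allOnes,
      Matrix.of_apply, smul_eq_mul]
    unfold wrel
    by_cases h : x = y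
    · simp [h]
    · rw [if_neg h, if_neg h]
      split_ifs
      · simp
      · rw [← h12]; simp
  · intro hN
    exact not_nomura W t ht hW h12 h01 (hN _ (cls_mem _ hm2))

end Pool.Agent.Results.MP_a35cac_co.OnlyPotts
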